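import Mathlib
import Pool.Agent.H29.FFARDefs
import Pool.Agent.H29.FFAR

set_option autoImplicit false

namespace Pool.Agent.Results.MP_071c0d_co.Half

open Pool.Agent.H29.FFAR

theorem result : ∀ (V : Type) [Fintype V] (H : SimpleGraph V),
    2 * AR H ≤ (H.vertexCoverNum + 1) * H.edgeSet.encard := by
  intro V _ H
  classical
  obtain ⟨s, h1, h2⟩ := H.vertexCoverNum_exists
  obtain ⟨f⟩ : Nonempty (V ↪ ℕ) := ⟨(Fintype.equivFin V).toEmbedding.trans Fin.valEmbedding⟩
  obtain ⟨S, ⟨h3, _, _, col, h4, h5⟩, h6⟩ := main f _ s.toFinset H.edgeFinset rfl (by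
    intro e he
    rw [SimpleGraph.mem_edgeFinset] at he
    refine ⟨H.not_isDiag_of_mem_edgeSet he, ?_⟩
    induction e using Sym2.ind with
    | _ a b =>
      rcases h2 he with h | h
      · exact ⟨a, by simpa using h, by simp⟩
      · exact ⟨b, by simpa using h, by simp⟩)
  have h7 : AR H ≤ S.length := sInf_le ⟨S, h3, ⟨f, col, by simpa using h4,
    fun e he => h5 e (by simpa using he)⟩, rfl⟩
  rw [← h1, Set.encard_eq_coe_toFinset_card, Set.encard_eq_coe_toFinset_card]
  refine le_trans (mul_le_mul_right h7 2) ?_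
  exact_mod_cast h6

end Pool.Agent.Results.MP_071c0d_co.Half
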